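import Pool.Agent.helper33.WD.AS2

set_option autoImplicit false

namespace Pool.Agent.Results.MP_4467b5_nt.WeightedDensity

open Complex Pool.Agent.helper33.WD

/-- Weighted form of the density hypothesis, unconditional: the zeros `ρ` of zeta to the right of the
critical line and in `T < Im ρ ≤ T + H`, each with the weight `exp (-2 * logAvg κ ρ)`, satisfy the
bound of the density hypothesis, for all intervals and all `σ` at once. -/
theorem result : ∃ C : ℝ, 0 < C ∧ ∀ (κ T H : ℝ) (S : Finset ℂ), 1 < κ → κ ≤ 2 → 0 ≤ T → 1 ≤ H →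
    (∀ ρ ∈ S, riemannZeta ρ = 0 ∧ 1 / 2 < ρ.re ∧ T < ρ.im ∧ ρ.im ≤ T + H) →
    ∑ ρ ∈ S, (analyticOrderNatAt riemannZeta ρ : ℝ) * H ^ (2 * ρ.re - 1) *
        Real.exp (-(2 * logAvg κ ρ)) ≤
      C / (κ - 1) ^ 9 * H * Real.log (T + H + 3) ^ 7 :=
  weighted

end Pool.Agent.Results.MP_4467b5_nt.WeightedDensity
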